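import Pool.Agent.L7h20.LM.Stm

/-! [BOXES] of project LM (helper20). -/

set_option autoImplicit false

open Set Filter Topology Metric Function
open scoped Manifold ContDiff

noncomputable section

namespace Pool.Agent.L7h21.LM

open Pool.Agent.Y522 Pool.Agent.L7h20.LM

/-- a complement of the image of an injective map -/
theorem exists_compl {n k : ℕ} (Λ : E k →L[ℝ] E n) (hΛ : Injective Λ) :
    ∃ (l : ℕ) (j : E l →L[ℝ] E n) (e : E n ≃L[ℝ] (E k × E l)),
      ∀ v w, e.symm (v, w) = Λ v + j w := by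
  obtain ⟨W, hW⟩ := Submodule.exists_isCompl (LinearMap.range Λ.toLinearMap)
  let i : E (Module.finrank ℝ W) ≃L[ℝ] W := ContinuousLinearEquiv.ofFinrankEq (by simp)
  let j : E (Module.finrank ℝ W) →L[ℝ] E n := W.subtypeL.comp (i : _ →L[ℝ] W)
  have hj : ∀ w, j w = (i w : E n) := fun _ => rfl
  let T : (E k × E (Module.finrank ℝ W)) →ₗ[ℝ] E n :=
    (Λ.toLinearMap ∘ₗ LinearMap.fst ℝ _ _) + (j.toLinearMap ∘ₗ LinearMap.snd ℝ _ _)
  have hT : ∀ v w, T (v, w) = Λ v + j w := fun _ _ => rfl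
  have hinj : Injective T := by
    rw [injective_iff_map_eq_zero]
    rintro ⟨v, w⟩ h
    rw [hT] at h
    have h1 : Λ v ∈ LinearMap.range Λ.toLinearMap ⊓ W := by
      refine ⟨⟨v, rfl⟩, ?_⟩
      have : Λ v = -(i w : E n) := by
        rw [← hj]
        exact eq_neg_of_add_eq_zero_left h
      rw [this]
      exact W.neg_mem (i w).2
    rw [hW.inf_eq_bot, Submodule.mem_bot] at h1
    have h2 : v = 0 := hΛ (by rw [h1, map_zero])
    rw [h1, zero_add, hj] at h
    have h3 : i w = 0 := Subtype.ext h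
    have h4 : w = 0 := i.injective (by rw [h3, map_zero])
    rw [h2, h4]
    rfl
  have hsurj : Surjective T := by
    intro y
    have h1 : y ∈ LinearMap.range Λ.toLinearMap ⊔ W := by
      rw [hW.sup_eq_top]
      trivial
    obtain ⟨a, ⟨v, rfl⟩, b, hb, rfl⟩ := Submodule.mem_sup.1 h1
    refine ⟨(v, i.symm ⟨b, hb⟩), ?_⟩
    rw [hT, hj, i.apply_symm_apply]
    rfl
  refine ⟨_, j, (LinearEquiv.ofBijective T ⟨hinj, hsurj⟩).toContinuousLinearEquiv.symm, ?_⟩
  intro v w
  rw [ContinuousLinearEquiv.symm_symm]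
  exact hT v w

/-- a surjective linear map of `E n` is invertible -/
theorem exists_equiv_of_surj {n : ℕ} (L : E n →L[ℝ] E n) (hL : Surjective L) :
    ∃ A : E n ≃L[ℝ] E n, (A : E n →L[ℝ] E n) = L := by
  have h1 : Injective L.toLinearMap := LinearMap.injective_iff_surjective.2 hL
  refine ⟨(LinearEquiv.ofBijective L.toLinearMap ⟨h1, hL⟩).toContinuousLinearEquiv, ?_⟩
  ext y
  rfl

/-- cancel a local diffeomorphism on the left -/
theorem LD_of_comp {n : ℕ} {N : Type} [TopologicalSpace N] [ChartedSpace (E n) N]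
    {Q : E n → N} {q : N → E n} {y : E n} (hc : ContinuousAt Q y) (hq : LD n q (Q y))
    (h : LD n (fun z => q (Q z)) y) : LD n Q y := by
  obtain ⟨B, hB, -, hB2, -⟩ := hq.exists_inverse
  have h1 : LD n (fun z => B (q (Q z))) y := LD.comp_fun (g := B) (by exact hB) h
  refine h1.congr ?_
  filter_upwards [hc.eventually hB2] with z hz
  exact hz.symm

section main

variable {n k : ℕ} {M N : Type} [TopologicalSpace M] [ChartedSpace (E n) M]
  [TopologicalSpace N] [ChartedSpace (E n) N]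

/-- smoothness in coordinates -/
theorem smooth_H {Φ : E k × M → N} (hΦ : ContMDiff ((𝓡 k).prod (𝓡 n)) (𝓡 n) ∞ Φ)
    {A : E n → M} (hA : LD n A 0) {q : N → E n} (hq : LD n q (Φ (0, A 0))) :
    ∀ᶠ y in 𝓝 ((0, 0) : E k × E n), ContDiffAt ℝ ∞ (fun y : E k × E n => q (Φ (y.1, A y.2))) y := by
  have h1 : ∀ᶠ y in 𝓝 ((0, 0) : E k × E n), LD n A y.2 :=
    (continuous_snd.continuousAt (x := ((0, 0) : E k × E n))).eventually hA.eventually
  have hc : ContinuousAt (fun y : E k × E n => Φ (y.1, A y.2)) (0, 0) := by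
    refine hΦ.continuous.continuousAt.comp ?_
    refine ContinuousAt.prodMk continuous_fst.continuousAt ?_
    exact ContinuousAt.comp (f := fun y : E k × E n => y.2) (g := A) hA.continuousAt
      continuous_snd.continuousAt
  have h2 : ∀ᶠ y in 𝓝 ((0, 0) : E k × E n), LD n q (Φ (y.1, A y.2)) :=
    hc.eventually hq.eventually
  filter_upwards [h1, h2] with y hy1 hy2
  refine contMDiffAt_iff_contDiffAt.1 ?_
  have h3 : ContMDiffAt 𝓘(ℝ, E k × E n) ((𝓡 k).prod (𝓡 n)) ∞
      (fun y : E k × E n => (y.1, A y.2)) y := by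
    refine ContMDiffAt.prodMk ?_ ?_
    · exact contDiff_fst.contMDiff.contMDiffAt
    · exact ContMDiffAt.comp (I' := 𝓡 n) y hy1.contMDiffAt contDiff_snd.contMDiff.contMDiffAt
  exact hy2.contMDiffAt.comp y (hΦ.contMDiffAt.comp y h3)

/-- the derivative of a local diffeomorphism is surjective -/
theorem LD_surj [IsManifold (𝓡 n) ∞ M] [IsManifold (𝓡 n) ∞ N] {f : M → N} {x : M}
    (hf : LD n f x) : Surjective (mfderiv (𝓡 n) (𝓡 n) f x) := by
  have h := hf.mfderivToContinuousLinearEquiv_coe (by simp)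
  rw [← h]
  exact (hf.mfderivToContinuousLinearEquiv (by simp)).surjective

/-- surjectivity of the derivative in coordinates -/
theorem surj_H [IsManifold (𝓡 n) ∞ M] [IsManifold (𝓡 n) ∞ N]
    {Φ : E k × M → N} (hΦ : ContMDiff ((𝓡 k).prod (𝓡 n)) (𝓡 n) ∞ Φ)
    {A : E n → M} (hA : LD n A 0) {q : N → E n} (hq : LD n q (Φ (0, A 0)))
    (hs : Surjective (mfderiv ((𝓡 k).prod (𝓡 n)) (𝓡 n) Φ ((0 : E k), A 0))) :
    Surjective (fderiv ℝ (fun y : E k × E n => q (Φ (y.1, A y.2))) (0, 0)) := by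
  have d1 : MDifferentiableAt 𝓘(ℝ, E k × E n) (𝓡 k) (fun y : E k × E n => y.1) (0, 0) :=
    differentiableAt_fst.mdifferentiableAt
  have d2 : MDifferentiableAt 𝓘(ℝ, E k × E n) (𝓡 n) (fun y : E k × E n => y.2) (0, 0) :=
    differentiableAt_snd.mdifferentiableAt
  have dA : MDifferentiableAt (𝓡 n) (𝓡 n) A 0 := hA.mdifferentiableAt
  have d3 : MDifferentiableAt 𝓘(ℝ, E k × E n) (𝓡 n) (fun y : E k × E n => A y.2) (0, 0) :=
    MDifferentiableAt.comp (I' := 𝓡 n) (f := fun y : E k × E n => y.2) (g := A) (0, 0) dA d2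
  have h3 : MDifferentiableAt 𝓘(ℝ, E k × E n) ((𝓡 k).prod (𝓡 n))
      (fun y : E k × E n => (y.1, A y.2)) (0, 0) := MDifferentiableAt.prodMk d1 d3
  have hd : MDifferentiableAt ((𝓡 k).prod (𝓡 n)) (𝓡 n) Φ ((0 : E k), A 0) :=
    hΦ.mdifferentiable (by simp) _
  have h5 : MDifferentiableAt 𝓘(ℝ, E k × E n) (𝓡 n) (fun y : E k × E n => Φ (y.1, A y.2)) (0, 0) :=
    MDifferentiableAt.comp (I' := (𝓡 k).prod (𝓡 n)) (f := fun y : E k × E n => (y.1, A y.2))
      (g := Φ) (0, 0) hd h3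
  have h4 : mfderiv 𝓘(ℝ, E k × E n) (𝓡 n) (fun y : E k × E n => Φ (y.1, A y.2)) (0, 0) =
      (mfderiv ((𝓡 k).prod (𝓡 n)) (𝓡 n) Φ ((0 : E k), A 0)).comp
        (mfderiv 𝓘(ℝ, E k × E n) ((𝓡 k).prod (𝓡 n)) (fun y : E k × E n => (y.1, A y.2))
          (0, 0)) :=
    mfderiv_comp (I' := (𝓡 k).prod (𝓡 n)) (f := fun y : E k × E n => (y.1, A y.2)) (g := Φ)
      ((0, 0) : E k × E n) hd h3
  have e1 : mfderiv 𝓘(ℝ, E k × E n) (𝓡 n) (fun y : E k × E n => q (Φ (y.1, A y.2))) (0, 0) =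
      (mfderiv (𝓡 n) (𝓡 n) q (Φ (0, A 0))).comp
        (mfderiv 𝓘(ℝ, E k × E n) (𝓡 n) (fun y : E k × E n => Φ (y.1, A y.2)) (0, 0)) :=
    mfderiv_comp (I' := 𝓡 n) (f := fun y : E k × E n => Φ (y.1, A y.2)) (g := q)
      ((0, 0) : E k × E n) hq.mdifferentiableAt h5
  have e2 : mfderiv 𝓘(ℝ, E k × E n) ((𝓡 k).prod (𝓡 n)) (fun y : E k × E n => (y.1, A y.2))
      (0, 0) = (mfderiv 𝓘(ℝ, E k × E n) (𝓡 k) (fun y : E k × E n => y.1) (0, 0)).prod
        (mfderiv 𝓘(ℝ, E k × E n) (𝓡 n) (fun y : E k × E n => A y.2) (0, 0)) :=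
    mfderiv_prodMk d1 d3
  have e3 : mfderiv 𝓘(ℝ, E k × E n) (𝓡 n) (fun y : E k × E n => A y.2) (0, 0) =
      (mfderiv (𝓡 n) (𝓡 n) A 0).comp
        (mfderiv 𝓘(ℝ, E k × E n) (𝓡 n) (fun y : E k × E n => y.2) (0, 0)) :=
    mfderiv_comp (I' := 𝓡 n) (f := fun y : E k × E n => y.2) (g := A)
      ((0, 0) : E k × E n) dA d2
  have f1 : mfderiv 𝓘(ℝ, E k × E n) (𝓡 k) (fun y : E k × E n => y.1) (0, 0) =
      ContinuousLinearMap.fst ℝ (E k) (E n) := by
    rw [mfderiv_eq_fderiv]
    exact fderiv_fst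
  have f2 : mfderiv 𝓘(ℝ, E k × E n) (𝓡 n) (fun y : E k × E n => y.2) (0, 0) =
      ContinuousLinearMap.snd ℝ (E k) (E n) := by
    rw [mfderiv_eq_fderiv]
    exact fderiv_snd
  intro u
  obtain ⟨u1, hu1⟩ := LD_surj hq u
  obtain ⟨vm, hvm⟩ := hs u1
  obtain ⟨z, hz⟩ := LD_surj hA vm.2
  refine ⟨(vm.1, z), ?_⟩
  rw [← mfderiv_eq_fderiv, e1, h4, e2, e3, f1, f2]
  change mfderiv (𝓡 n) (𝓡 n) q (Φ (0, A 0)) (mfderiv ((𝓡 k).prod (𝓡 n)) (𝓡 n) Φ ((0 : E k), A 0)
    (vm.1, mfderiv (𝓡 n) (𝓡 n) A 0 z)) = u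
  rw [hz]
  exact (congrArg _ hvm).trans hu1

/-- the preferred chart as a local diffeomorphism -/
def chPD [IsManifold (𝓡 n) ∞ M] (x : M) : PartialDiffeomorph (𝓡 n) (𝓡 n) M (E n) ∞ where
  toPartialEquiv := (chartAt (E n) x).toPartialEquiv
  open_source := (chartAt (E n) x).open_source
  open_target := (chartAt (E n) x).open_target
  contMDiffOn_toFun := contMDiffOn_chart
  contMDiffOn_invFun := contMDiffOn_chart_symm

/-- local coordinates centred at a point -/
theorem exists_coord [IsManifold (𝓡 n) ∞ M] (x : M) :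
    ∃ (p : M → E n) (A : E n → M), LD n p x ∧ p x = 0 ∧ LD n A 0 ∧ A 0 = x ∧
      (∀ᶠ y in 𝓝 x, A (p y) = y) ∧ ∀ᶠ z in 𝓝 (0 : E n), p (A z) = z := by
  have h0 : LD n (chartAt (E n) x) x := ⟨chPD x, mem_chart_source (E n) x, fun _ _ => rfl⟩
  have h1 : LD n (fun y => chartAt (E n) x y + (-(chartAt (E n) x x))) x :=
    LD.comp_fun (g := fun z => z + (-(chartAt (E n) x x))) (LD_add_const _ _) h0
  obtain ⟨A, hA, hAx, hA1, hA2⟩ := h1.exists_inverse
  have hz : chartAt (E n) x x + (-(chartAt (E n) x x)) = 0 := add_neg_cancel _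
  rw [hz] at hA hAx hA2
  exact ⟨_, A, h1, hz, hA, hAx, hA1, hA2⟩

/-- the maps of an action are local diffeomorphisms -/
theorem LD_act {φ : E k → N → N} (hφ : IsAct (n := n) k φ) (t : E k) (y : N) : LD n (φ t) y := by
  have hs : ∀ t : E k, ContMDiff (𝓡 n) (𝓡 n) ∞ (φ t) := fun t =>
    hφ.smooth.comp (contMDiff_const.prodMk contMDiff_id)
  let D : Diffeomorph (𝓡 n) (𝓡 n) N N ∞ :=
    { toFun := φ t
      invFun := φ (-t)
      left_inv := fun z => by rw [← hφ.add, neg_add_cancel, hφ.zero]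
      right_inv := fun z => by rw [← hφ.add, add_neg_cancel, hφ.zero]
      contMDiff_toFun := hs t
      contMDiff_invFun := hs (-t) }
  exact D.isLocalDiffeomorph y

/-- injectivity of the orbit map in coordinates -/
theorem inj_orbit [IsManifold (𝓡 n) ∞ M] {ψ : E k → M → M} (hψ : IsAct (n := n) k ψ) (x : M)
    {p : M → E n} (hp : LD n p x) : Injective (fderiv ℝ (fun s : E k => p (ψ s x)) 0) := by
  have d1 : MDifferentiableAt (𝓡 k) (𝓡 n) (fun s : E k => ψ s x) 0 := by
    have h : ContMDiff (𝓡 k) (𝓡 n) ∞ (fun s : E k => ψ s x) :=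
      hψ.smooth.comp (contMDiff_id.prodMk contMDiff_const)
    exact h.mdifferentiable (by simp) 0
  have hp' : LD n p (ψ 0 x) := by rw [hψ.zero]; exact hp
  have e1 : mfderiv (𝓡 k) (𝓡 n) (fun s : E k => p (ψ s x)) 0 =
      (mfderiv (𝓡 n) (𝓡 n) p (ψ 0 x)).comp (mfderiv (𝓡 k) (𝓡 n) (fun s : E k => ψ s x) 0) :=
    mfderiv_comp (I' := 𝓡 n) (f := fun s : E k => ψ s x) (g := p) (0 : E k)
      hp'.mdifferentiableAt d1
  rw [← mfderiv_eq_fderiv, e1]
  exact hp'.mfderiv_injective.comp (hψ.free x)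

/-- [BOXES] -/
theorem s_BOXES : S_BOXES := by
  intro n k M N _ _ _ _ _ _ ψ φ f a hψ hφ hf x
  obtain ⟨p, A, hp, hpx, hA, hAx, hA1, hA2⟩ := exists_coord (n := n) x
  obtain ⟨q, -, hq, hqx, -⟩ := exists_coord (n := n) (f x)
  -- the two maps in coordinates
  let G : E k × E n → E n := fun y => p (ψ y.1 (A y.2))
  let H : E k × E n → E n := fun y => q (φ y.1 (f (A y.2)))
  have hΦG : ContMDiff ((𝓡 k).prod (𝓡 n)) (𝓡 n) ∞ (fun y : E k × M => ψ y.1 y.2) := hψ.smooth
  have hΦH : ContMDiff ((𝓡 k).prod (𝓡 n)) (𝓡 n) ∞ (fun y : E k × M => φ y.1 (f y.2)) :=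
    hφ.smooth.comp (contMDiff_fst.prodMk (hf.smooth.comp contMDiff_snd))
  have hpG : LD n p (ψ 0 (A 0)) := by rw [hψ.zero, hAx]; exact hp
  have hqH : LD n q (φ 0 (f (A 0))) := by rw [hφ.zero, hAx]; exact hq
  have hG : ∀ᶠ y in 𝓝 ((0, 0) : E k × E n), ContDiffAt ℝ ∞ G y := smooth_H hΦG hA hpG
  have hH : ∀ᶠ y in 𝓝 ((0, 0) : E k × E n), ContDiffAt ℝ ∞ H y := smooth_H hΦH hA hqH
  have hG0 : HasFDerivAt G (fderiv ℝ G (0, 0)) ((0, 0) : E k × E n) :=
    (hG.self_of_nhds.differentiableAt (by simp)).hasFDerivAt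
  have hH0 : HasFDerivAt H (fderiv ℝ H (0, 0)) ((0, 0) : E k × E n) :=
    (hH.self_of_nhds.differentiableAt (by simp)).hasFDerivAt
  have hsH : Surjective (fderiv ℝ H (0, 0)) := by
    refine surj_H hΦH hA hqH ?_
    rw [hAx]
    exact hf.trans x
  set DG : E k × E n →L[ℝ] E n := fderiv ℝ G (0, 0) with hDG
  set DH : E k × E n →L[ℝ] E n := fderiv ℝ H (0, 0) with hDH
  have hG00 : G (0, 0) = 0 := by
    change p (ψ 0 (A 0)) = 0
    rw [hψ.zero, hAx, hpx]
  -- the derivative of `G`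
  have hinl : HasFDerivAt (fun s : E k => ((s, 0) : E k × E n))
      (ContinuousLinearMap.inl ℝ (E k) (E n)) 0 := (ContinuousLinearMap.inl ℝ (E k) (E n)).hasFDerivAt
  have hinr : HasFDerivAt (fun z : E n => ((0, z) : E k × E n))
      (ContinuousLinearMap.inr ℝ (E k) (E n)) 0 := (ContinuousLinearMap.inr ℝ (E k) (E n)).hasFDerivAt
  have hGr : ∀ z : E n, DG (0, z) = z := by
    intro z
    have h1 : HasFDerivAt (fun z : E n => G (0, z)) (DG.comp (ContinuousLinearMap.inr ℝ (E k) (E n)))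
        0 := HasFDerivAt.comp (g := G) (0 : E n) hG0 hinr
    have h2 : HasFDerivAt (fun z : E n => G (0, z)) (ContinuousLinearMap.id ℝ (E n)) 0 := by
      refine (hasFDerivAt_id (0 : E n)).congr_of_eventuallyEq ?_
      filter_upwards [hA2] with z hz
      change p (ψ 0 (A z)) = z
      rw [hψ.zero, hz]
    exact congrArg (fun L : E n →L[ℝ] E n => L z) (h1.unique h2)
  have hGl : HasFDerivAt (fun s : E k => p (ψ s x)) (DG.comp (ContinuousLinearMap.inl ℝ (E k) (E n)))
      0 := by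
    have h1 : HasFDerivAt (fun s : E k => G (s, 0)) (DG.comp (ContinuousLinearMap.inl ℝ (E k) (E n)))
        0 := HasFDerivAt.comp (g := G) (0 : E k) hG0 hinl
    have h2 : (fun s : E k => G (s, 0)) = fun s : E k => p (ψ s x) := by
      funext s
      change p (ψ s (A 0)) = p (ψ s x)
      rw [hAx]
    rw [h2] at h1
    exact h1
  let Λ : E k →L[ℝ] E n := DG.comp (ContinuousLinearMap.inl ℝ (E k) (E n))
  have hΛ : Injective Λ := by
    have h := inj_orbit hψ x hp
    rw [hGl.fderiv] at h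
    exact h
  have hΛv : ∀ v, DG (v, 0) = Λ v := fun _ => rfl
  -- the cocycle
  have ha0 : a 0 x = 0 := by
    have h := hf.coc 0 0 x
    rw [add_zero, hψ.zero] at h
    exact (left_eq_add.1 h)
  have hda : DifferentiableAt ℝ (fun s : E k => a s x) 0 := by
    have h : ContMDiff (𝓡 k) (𝓡 k) ∞ (fun s : E k => a s x) :=
      hf.smootha.comp (contMDiff_id.prodMk contMDiff_const)
    exact (contMDiff_iff_contDiff.1 h).differentiable (by simp) 0
  let α : E k →L[ℝ] E k := fderiv ℝ (fun s : E k => a s x) 0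
  have hkey : ∀ v, DH (0, Λ v) = DH (α v, 0) := by
    intro v
    have h1 : HasFDerivAt (fun s : E k => H (a s x, 0))
        (DH.comp ((ContinuousLinearMap.inl ℝ (E k) (E n)).comp α)) 0 := by
      have h2 : HasFDerivAt (fun s : E k => ((a s x, 0) : E k × E n))
          ((ContinuousLinearMap.inl ℝ (E k) (E n)).comp α) 0 :=
        (ContinuousLinearMap.inl ℝ (E k) (E n)).hasFDerivAt.comp (0 : E k) hda.hasFDerivAt
      have h3 : HasFDerivAt H DH (a 0 x, (0 : E n)) := by
        rw [ha0]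
        exact hH0
      exact HasFDerivAt.comp (g := H) (0 : E k) h3 h2
    have h2 : HasFDerivAt (fun s : E k => H (0, p (ψ s x)))
        (DH.comp ((ContinuousLinearMap.inr ℝ (E k) (E n)).comp Λ)) 0 := by
      have h2 : HasFDerivAt (fun s : E k => ((0, p (ψ s x)) : E k × E n))
          ((ContinuousLinearMap.inr ℝ (E k) (E n)).comp Λ) 0 :=
        (ContinuousLinearMap.inr ℝ (E k) (E n)).hasFDerivAt.comp (0 : E k) hGl
      have h3 : HasFDerivAt H DH ((0 : E k), p (ψ 0 x)) := by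
        rw [hψ.zero, hpx]
        exact hH0
      exact HasFDerivAt.comp (g := H) (0 : E k) h3 h2
    have h3 : (fun s : E k => H (0, p (ψ s x))) =ᶠ[𝓝 0] (fun s : E k => H (a s x, 0)) := by
      have hc : ContinuousAt (fun s : E k => ψ s x) 0 := by
        have h : ContMDiff (𝓡 k) (𝓡 n) ∞ (fun s : E k => ψ s x) :=
          hψ.smooth.comp (contMDiff_id.prodMk contMDiff_const)
        exact h.continuous.continuousAt
      have h4 : ∀ᶠ y in 𝓝 (ψ 0 x), A (p y) = y := by
        rw [hψ.zero]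
        exact hA1
      filter_upwards [hc.eventually h4] with s hs
      change q (φ 0 (f (A (p (ψ s x))))) = q (φ (a s x) (f (A 0)))
      rw [hs, hφ.zero, hf.orb, hAx]
    have h4 := h2.congr_of_eventuallyEq h3.symm
    exact congrArg (fun L : E k →L[ℝ] E n => L v) (h4.unique h1)
  obtain ⟨l, j, e, he⟩ := exists_compl Λ hΛ
  -- the linear map `R`
  let R : E n →L[ℝ] E k × E n :=
    ((ContinuousLinearMap.fst ℝ (E k) (E l)).comp (e : E n →L[ℝ] E k × E l)).prod
      (j.comp ((ContinuousLinearMap.snd ℝ (E k) (E l)).comp (e : E n →L[ℝ] E k × E l)))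
  have hR : ∀ y, R y = ((e y).1, j (e y).2) := fun _ => rfl
  have hR0 : R 0 = (0, 0) := by rw [map_zero]; rfl
  have hRt : Tendsto R (𝓝 0) (𝓝 ((0, 0) : E k × E n)) := by
    have h := R.continuous.tendsto 0
    rw [hR0] at h
    exact h
  let P : E n → M := fun y => ψ (e y).1 (A (j (e y).2))
  let Q : E n → N := fun y => φ (e y).1 (f (A (j (e y).2)))
  have hP0 : P 0 = x := by
    change ψ (e 0).1 (A (j (e 0).2)) = x
    rw [map_zero]
    change ψ 0 (A (j 0)) = x
    rw [map_zero, hψ.zero, hAx]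
  have hQ0 : Q 0 = f x := by
    change φ (e 0).1 (f (A (j (e 0).2))) = f x
    rw [map_zero]
    change φ 0 (f (A (j 0))) = f x
    rw [map_zero, hφ.zero, hAx]
  have hAj : ContinuousAt (fun y : E n => A (j (e y).2)) 0 := by
    have h1 : ContinuousAt (fun y : E n => j (e y).2) 0 :=
      (j.continuous.comp (continuous_snd.comp e.continuous)).continuousAt
    have h2 : j (e (0 : E n)).2 = 0 := by
      rw [map_zero]
      exact map_zero j
    have h3 : ContinuousAt A (j (e (0 : E n)).2) := by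
      rw [h2]
      exact hA.continuousAt
    exact ContinuousAt.comp (f := fun y : E n => j (e y).2) (g := A) h3 h1
  have he1 : ContinuousAt (fun y : E n => (e y).1) 0 :=
    (continuous_fst.comp e.continuous).continuousAt
  have hPc : ContinuousAt P 0 :=
    ContinuousAt.comp (f := fun y : E n => ((e y).1, A (j (e y).2)))
      (g := fun y : E k × M => ψ y.1 y.2) hΦG.continuous.continuousAt (he1.prodMk hAj)
  have hQc : ContinuousAt Q 0 :=
    ContinuousAt.comp (f := fun y : E n => ((e y).1, A (j (e y).2)))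
      (g := fun y : E k × M => φ y.1 (f y.2)) hΦH.continuous.continuousAt (he1.prodMk hAj)
  have hDGv : ∀ v z, DG (v, z) = Λ v + z := by
    intro v z
    have h : ((v, z) : E k × E n) = (v, 0) + (0, z) := by
      ext1 <;> simp
    rw [h, map_add, hGr]
    rfl
  have hDHv : ∀ v z, DH (v, z) = DH (v, 0) + DH (0, z) := by
    intro v z
    rw [← map_add]
    congr 1
    ext1 <;> simp
  have hLP : LD n P 0 := by
    refine LD_of_comp (q := p) hPc (by rw [hP0]; exact hp) ?_
    refine LD_of_contDiffAt (A := ContinuousLinearEquiv.refl ℝ (E n)) ?_ ?_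
    · filter_upwards [hRt.eventually hG] with y hy
      exact ContDiffAt.comp (f := fun y => R y) (g := G) y hy R.contDiff.contDiffAt
    · have h1 : HasFDerivAt G DG (R 0) := by
        rw [hR0]
        exact hG0
      have h2 : HasFDerivAt (fun y => G (R y)) (DG.comp R) 0 :=
        HasFDerivAt.comp (g := G) (0 : E n) h1 R.hasFDerivAt
      have h3 : DG.comp R = (ContinuousLinearEquiv.refl ℝ (E n) : E n →L[ℝ] E n) := by
        refine ContinuousLinearMap.ext fun y => ?_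
        change DG (R y) = y
        rw [hR, hDGv, ← he, Prod.mk.eta, e.symm_apply_apply]
      rw [h3] at h2
      exact h2
  have hsR : Surjective (DH.comp R) := by
    intro u
    obtain ⟨vz, hvz⟩ := hsH u
    obtain ⟨v, z⟩ := vz
    have h1 : z = Λ (e z).1 + j (e z).2 := by
      rw [← he, Prod.mk.eta, e.symm_apply_apply]
    refine ⟨e.symm (v + α (e z).1, (e z).2), ?_⟩
    change DH (R _) = u
    rw [hR, e.apply_symm_apply]
    change DH (v + α (e z).1, j (e z).2) = u
    rw [← hvz, hDHv v z, hDHv (v + α (e z).1)]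
    have h2 : DH (v + α (e z).1, 0) = DH (v, 0) + DH (0, Λ (e z).1) := by
      rw [hkey, ← map_add]
      congr 1
      ext1 <;> simp
    have h3 : DH (0, z) = DH (0, Λ (e z).1) + DH (0, j (e z).2) := by
      conv_lhs => rw [h1]
      rw [← map_add]
      congr 1
      ext1 <;> simp
    rw [h2, h3, add_assoc]
  have hLQ : LD n Q 0 := by
    refine LD_of_comp (q := q) hQc (by rw [hQ0]; exact hq) ?_
    obtain ⟨B, hB⟩ := exists_equiv_of_surj (DH.comp R) hsR
    refine LD_of_contDiffAt (A := B) ?_ ?_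
    · filter_upwards [hRt.eventually hH] with y hy
      exact ContDiffAt.comp (f := fun y => R y) (g := H) y hy R.contDiff.contDiffAt
    · have h1 : HasFDerivAt H DH (R 0) := by
        rw [hR0]
        exact hH0
      rw [hB]
      exact HasFDerivAt.comp (g := H) (0 : E n) h1 R.hasFDerivAt
  have hPe : ∀ s w, P (e.symm (s, w)) = ψ s (A (j w)) := by
    intro s w
    change ψ (e (e.symm (s, w))).1 (A (j (e (e.symm (s, w))).2)) = _
    rw [e.apply_symm_apply]
  have hQe : ∀ s w, Q (e.symm (s, w)) = φ s (f (A (j w))) := by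
    intro s w
    change φ (e (e.symm (s, w))).1 (f (A (j (e (e.symm (s, w))).2))) = _
    rw [e.apply_symm_apply]
  refine ⟨l, e, P, Q, hP0, hLP, ?_, ?_, ?_⟩
  · intro t
    have h1 : Q = fun y => φ t (Q (y + (-e.symm (t, 0)))) := by
      funext y
      change φ (e y).1 (f (A (j (e y).2))) = φ t (φ (e (y + (-e.symm (t, 0)))).1
        (f (A (j (e (y + (-e.symm (t, 0)))).2))))
      rw [map_add, map_neg, e.apply_symm_apply]
      change φ (e y).1 (f (A (j (e y).2))) = φ t (φ ((e y).1 + (-t)) (f (A (j ((e y).2 + (-0))))))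
      rw [← hφ.add, neg_zero, add_zero]
      congr 1
      abel
    have h2 : LD n (fun y => Q (y + (-e.symm (t, 0)))) (e.symm (t, 0)) := by
      refine LD.comp_fun (g := Q) (f := fun y => y + (-e.symm (t, 0))) ?_ (LD_add_const _ _)
      rw [add_neg_cancel]
      exact hLQ
    rw [h1]
    exact LD.comp_fun (g := φ t) (LD_act hφ t _) h2
  · intro s w
    rw [hPe, hPe, hψ.zero]
  · intro t w
    rw [hPe, hQe, hψ.zero]

end main

end Pool.Agent.L7h21.LM
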