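import Pool.Agent.L7h20.LM.Stm

/-! [DET] of project LM (helper20). -/

set_option autoImplicit false

open Set Filter Topology Metric Function
open scoped Manifold ContDiff

noncomputable section

namespace Pool.Agent.L7h21.LM

open Pool.Agent.Y522 Pool.Agent.L7h20.LM

/-- the determinant of a block triangular map -/
theorem det_block {k l : ℕ} (D : (E k × E l) →ₗ[ℝ] E k) :
    LinearMap.det (D.prod (LinearMap.snd ℝ (E k) (E l))) =
      LinearMap.det (D ∘ₗ LinearMap.inl ℝ (E k) (E l)) := by
  let b := (EuclideanSpace.basisFun (Fin k) ℝ).toBasis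
  let b' := (EuclideanSpace.basisFun (Fin l) ℝ).toBasis
  have h : LinearMap.toMatrix (b.prod b') (b.prod b') (D.prod (LinearMap.snd ℝ (E k) (E l))) =
      Matrix.fromBlocks (LinearMap.toMatrix b b (D ∘ₗ LinearMap.inl ℝ (E k) (E l)))
        (LinearMap.toMatrix b' b (D ∘ₗ LinearMap.inr ℝ (E k) (E l))) 0 1 := by
    ext i j
    rcases i with i | i <;> rcases j with j | j
    · simp [LinearMap.toMatrix_apply]
    · simp [LinearMap.toMatrix_apply]
    · simp [LinearMap.toMatrix_apply]
    · rw [LinearMap.toMatrix_apply]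
      simp [Matrix.one_apply, Finsupp.single_apply, eq_comm]
  rw [← LinearMap.det_toMatrix (b.prod b'), h, Matrix.det_fromBlocks_zero₂₁, Matrix.det_one,
    mul_one, LinearMap.det_toMatrix]

theorem s_DET : S_DET := by
  intro n k l e c z hc
  obtain ⟨Dc, hD⟩ : ∃ Dc : (E k × E l) →L[ℝ] E k, HasFDerivAt c Dc (e z) := ⟨_, hc.hasFDerivAt⟩
  have hA : HasFDerivAt (fun s => c (s, (e z).2))
      (Dc.comp (ContinuousLinearMap.inl ℝ (E k) (E l))) (e z).1 := by
    have h1 : HasFDerivAt (fun s : E k => (s, (e z).2)) (ContinuousLinearMap.inl ℝ (E k) (E l))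
        (e z).1 := hasFDerivAt_prodMk_left _ _
    exact HasFDerivAt.comp (e z).1 (by exact hD) h1
  have hF : HasFDerivAt (fun y => e.symm (c (e y), (e y).2))
      ((e.symm : (E k × E l) →L[ℝ] E n).comp ((Dc.comp (e : E n →L[ℝ] (E k × E l))).prod
        ((ContinuousLinearMap.snd ℝ (E k) (E l)).comp (e : E n →L[ℝ] (E k × E l))))) z := by
    have h1 : HasFDerivAt (fun y => e y) (e : E n →L[ℝ] (E k × E l)) z := e.hasFDerivAt
    have h2 : HasFDerivAt (fun y => c (e y)) (Dc.comp (e : E n →L[ℝ] (E k × E l))) z :=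
      hD.comp z h1
    have h3 : HasFDerivAt (fun y => (e y).2) ((ContinuousLinearMap.snd ℝ (E k) (E l)).comp
        (e : E n →L[ℝ] (E k × E l))) z := hasFDerivAt_snd.comp z h1
    exact e.symm.hasFDerivAt.comp z (h2.prodMk h3)
  rw [hF.fderiv, hA.fderiv]
  constructor
  · rw [ContinuousLinearMap.det, ContinuousLinearMap.det]
    have h1 := LinearMap.det_conj ((Dc : (E k × E l) →ₗ[ℝ] E k).prod
      (LinearMap.snd ℝ (E k) (E l))) e.symm.toLinearEquiv
    have h2 := det_block (Dc : (E k × E l) →ₗ[ℝ] E k)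
    rw [h2] at h1
    exact h1
  · have r1 := LinearMap.finrank_range_add_finrank_ker
      ((e.symm : (E k × E l) →L[ℝ] E n).comp ((Dc.comp (e : E n →L[ℝ] (E k × E l))).prod
        ((ContinuousLinearMap.snd ℝ (E k) (E l)).comp
          (e : E n →L[ℝ] (E k × E l))))).toLinearMap
    have r2 := LinearMap.finrank_range_add_finrank_ker
      (Dc.comp (ContinuousLinearMap.inl ℝ (E k) (E l))).toLinearMap
    rw [finrank_euclideanSpace_fin] at r1 r2
    have hk : ∀ y : LinearMap.ker ((e.symm : (E k × E l) →L[ℝ] E n).comp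
        ((Dc.comp (e : E n →L[ℝ] (E k × E l))).prod
        ((ContinuousLinearMap.snd ℝ (E k) (E l)).comp
          (e : E n →L[ℝ] (E k × E l))))).toLinearMap, (e (y : E n)).2 = 0 ∧ Dc (e (y : E n)) = 0 := by
      rintro ⟨y, hy⟩
      rw [LinearMap.mem_ker] at hy
      have h1 : e.symm (Dc (e y), (e y).2) = 0 := hy
      rw [map_eq_zero_iff _ e.symm.injective, Prod.mk_eq_zero] at h1
      exact ⟨h1.2, h1.1⟩
    have r3 : Module.finrank ℝ (LinearMap.ker ((e.symm : (E k × E l) →L[ℝ] E n).comp
        ((Dc.comp (e : E n →L[ℝ] (E k × E l))).prod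
        ((ContinuousLinearMap.snd ℝ (E k) (E l)).comp
          (e : E n →L[ℝ] (E k × E l))))).toLinearMap) ≤
        Module.finrank ℝ (LinearMap.ker
          (Dc.comp (ContinuousLinearMap.inl ℝ (E k) (E l))).toLinearMap) := by
      let g : LinearMap.ker ((e.symm : (E k × E l) →L[ℝ] E n).comp
          ((Dc.comp (e : E n →L[ℝ] (E k × E l))).prod
          ((ContinuousLinearMap.snd ℝ (E k) (E l)).comp
          (e : E n →L[ℝ] (E k × E l))))).toLinearMap →ₗ[ℝ] LinearMap.ker
          (Dc.comp (ContinuousLinearMap.inl ℝ (E k) (E l))).toLinearMap :=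
        LinearMap.codRestrict _ ((LinearMap.fst ℝ (E k) (E l)) ∘ₗ
          (e.toLinearEquiv : E n →ₗ[ℝ] (E k × E l)) ∘ₗ Submodule.subtype _) (by
            intro y
            obtain ⟨h1, h2⟩ := hk y
            rw [LinearMap.mem_ker]
            show Dc ((e (y : E n)).1, 0) = 0
            rw [← h1]
            exact h2)
      refine LinearMap.finrank_le_finrank_of_injective (f := g) ?_
      intro y y' h
      have h1 : (e (y : E n)).1 = (e (y' : E n)).1 := congrArg Subtype.val h
      apply Subtype.ext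
      apply e.injective
      exact Prod.ext h1 ((hk y).1.trans (hk y').1.symm)
    omega

end Pool.Agent.L7h21.LM
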